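import Pool.Agent.K3h44.SQ.Stm2
import Pool.Agent.K3h17.SQ.DESC

/-! Brick DESC2 of project SQ: valuations of `x - b τ`, `τ ^ 3 = -a`. -/

set_option autoImplicit false

namespace Pool.Agent.K3h96.SQ

open Pool.Agent.K3h44.SQ NumberField IsDedekindDomain

theorem t_DESC2 : S_DESC2 := by
  intro K _ _ τ₁ τ₂ τ₃ a b x y M H hxy hy hq v hM
  have hP := v.isPrime
  have e0 := H 0
  have e1 := H 1
  have e2 := H (-1)
  have two : (2 : 𝓞 K) ≠ 0 := two_ne_zero
  have hs2 : τ₁ * τ₂ + τ₁ * τ₃ + τ₂ * τ₃ = 0 := by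
    have h : (2 : 𝓞 K) * (τ₁ * τ₂ + τ₁ * τ₃ + τ₂ * τ₃) = 0 := by
      linear_combination e1 - e2
    exact (mul_eq_zero.mp h).resolve_left two
  have hs1 : τ₁ + τ₂ + τ₃ = 0 := by
    linear_combination e0 - e1 + hs2
  have hs3 : τ₁ * τ₂ * τ₃ = -(a : 𝓞 K) := by
    linear_combination -e0
  obtain ⟨A, hA⟩ : ∃ A : 𝓞 K, A = (x : 𝓞 K) - b * τ₁ := ⟨_, rfl⟩
  obtain ⟨B, hB⟩ : ∃ B : 𝓞 K, B = (x : 𝓞 K) - b * τ₂ := ⟨_, rfl⟩
  obtain ⟨D, hD⟩ : ∃ D : 𝓞 K, D = (x : 𝓞 K) - b * τ₃ := ⟨_, rfl⟩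
  have hABD : A * (B * D) = (y : 𝓞 K) ^ 2 := by
    have h1 : ((y : 𝓞 K)) ^ 2 = (x : 𝓞 K) ^ 3 + a * (b : 𝓞 K) ^ 3 := by
      exact_mod_cast congrArg (Int.cast : ℤ → 𝓞 K) hxy
    rw [hA, hB, hD]
    linear_combination -h1 - (b : 𝓞 K) * x ^ 2 * hs1 + (b : 𝓞 K) ^ 2 * x * hs2 -
      (b : 𝓞 K) ^ 3 * hs3
  rw [← hA]
  have h3M : (3 : 𝓞 K) ∉ v.asIdeal := by
    intro h
    apply hM
    rw [Nat.cast_mul, Nat.cast_mul]
    exact v.asIdeal.mul_mem_right _ (v.asIdeal.mul_mem_right _ (by exact_mod_cast h))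
  have haM : (a : 𝓞 K) ∉ v.asIdeal := by
    intro h
    apply hM
    rw [Nat.cast_mul, Nat.cast_mul]
    refine v.asIdeal.mul_mem_right _ (v.asIdeal.mul_mem_left _ ?_)
    rcases Int.natAbs_eq a with h1 | h1
    · have h2 : ((a.natAbs : ℕ) : 𝓞 K) = (a : 𝓞 K) := by
        rw [← Int.cast_natCast, ← h1]
      rw [h2]
      exact h
    · have h2 : ((a.natAbs : ℕ) : 𝓞 K) = -(a : 𝓞 K) := by
        have h3 : ((a.natAbs : ℕ) : ℤ) = -a := by omega
        rw [← Int.cast_natCast, h3, Int.cast_neg]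
      rw [h2]
      exact v.asIdeal.neg_mem h
  have hMM : (M : 𝓞 K) ∉ v.asIdeal := by
    intro h
    apply hM
    rw [Nat.cast_mul]
    exact v.asIdeal.mul_mem_left _ h
  have hprod : (τ₁ - τ₂) * (τ₁ - τ₃) = 3 * τ₁ ^ 2 := by
    linear_combination hs2 - 2 * τ₁ * hs1
  have hcub : τ₁ ^ 3 = -(a : 𝓞 K) := by
    have h := H τ₁
    linear_combination -h
  have hdiff : (τ₁ - τ₂) * (τ₁ - τ₃) ∉ v.asIdeal := by
    intro h
    rw [hprod] at h
    have h1 := (hP.mem_or_mem h).resolve_left h3M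
    have h2 := hP.mem_of_pow_mem 2 h1
    have h3 : τ₁ ^ 3 ∈ v.asIdeal := v.asIdeal.pow_mem_of_mem h2 3 (by norm_num)
    rw [hcub] at h3
    exact haM (v.asIdeal.neg_mem_iff.mp h3)
  -- the main point
  have hbad : A ∈ v.asIdeal → (b : 𝓞 K) ∈ v.asIdeal → False := by
    intro h1 hb
    have hx' : (x : 𝓞 K) ∈ v.asIdeal := by
      have h4 := v.asIdeal.add_mem h1 (v.asIdeal.mul_mem_right τ₁ hb)
      have h5 : A + (b : 𝓞 K) * τ₁ = (x : 𝓞 K) := by
        rw [hA]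
        ring
      rwa [h5] at h4
    have hy' : (y : 𝓞 K) ∈ v.asIdeal := by
      apply hP.mem_of_pow_mem 2
      rw [← hABD]
      exact v.asIdeal.mul_mem_right _ h1
    have hg : ((Int.gcd x y : ℕ) : 𝓞 K) ∈ v.asIdeal := by
      have h4 : ((Int.gcd x y : ℕ) : 𝓞 K) = (x : 𝓞 K) * (Int.gcdA x y : 𝓞 K) +
          (y : 𝓞 K) * (Int.gcdB x y : 𝓞 K) := by
        exact_mod_cast congrArg (Int.cast : ℤ → 𝓞 K) (Int.gcd_eq_gcd_ab x y)
      rw [h4]
      exact v.asIdeal.add_mem (v.asIdeal.mul_mem_right _ hx') (v.asIdeal.mul_mem_right _ hy')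
    have hg0 : Int.gcd x y ≠ 0 := by
      rw [Ne, Int.gcd_eq_zero_iff]
      exact fun h => hy h.2
    obtain ⟨q, hq1, hq2, hq3⟩ := Pool.Agent.K3h17.SQ.exists_prime v.asIdeal _ hg0 hg
    have hqx : (q : ℤ) ∣ x := (Int.natCast_dvd_natCast.2 hq2).trans (Int.gcd_dvd_left _ _)
    have hqy : (q : ℤ) ∣ y := (Int.natCast_dvd_natCast.2 hq2).trans (Int.gcd_dvd_right _ _)
    obtain ⟨e, he⟩ := hq q hq1 hqx hqy
    apply hMM
    rw [he, Nat.cast_mul]
    exact v.asIdeal.mul_mem_right _ hq3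
  have hval : ∀ z : 𝓞 K, z ∉ v.asIdeal → v.valuation K (z : K) = 1 := by
    intro z hz
    have h1 : v.valuation K (algebraMap (𝓞 K) K z) = 1 := by
      rw [HeightOneSpectrum.valuation_of_algebraMap]
      exact HeightOneSpectrum.intValuation_eq_one_iff.2 hz
    exact h1
  by_cases hAP : A ∈ v.asIdeal
  · have hBn : B ∉ v.asIdeal := by
      intro h
      have h1 := v.asIdeal.sub_mem h hAP
      have h2 : B - A = (b : 𝓞 K) * (τ₁ - τ₂) := by
        rw [hA, hB]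
        ring
      rw [h2] at h1
      rcases hP.mem_or_mem h1 with h3 | h3
      · exact hbad hAP h3
      · exact hdiff (v.asIdeal.mul_mem_right _ h3)
    have hDn : D ∉ v.asIdeal := by
      intro h
      have h1 := v.asIdeal.sub_mem h hAP
      have h2 : D - A = (b : 𝓞 K) * (τ₁ - τ₃) := by
        rw [hA, hD]
        ring
      rw [h2] at h1
      rcases hP.mem_or_mem h1 with h3 | h3
      · exact hbad hAP h3
      · exact hdiff (v.asIdeal.mul_mem_left _ h3)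
    have hBD : B * D ∉ v.asIdeal := fun h => (hP.mem_or_mem h).elim hBn hDn
    have h1 := hval (B * D) hBD
    have h2 : v.valuation K (A : K) * v.valuation K ((B * D : 𝓞 K) : K) =
        v.valuation K ((y : 𝓞 K) : K) ^ 2 := by
      rw [← map_mul, ← map_pow]
      congr 1
      have h3 := congrArg (algebraMap (𝓞 K) K) hABD
      rw [map_mul, map_pow] at h3
      exact h3
    rw [h1, mul_one] at h2
    have hy0 : v.valuation K ((y : 𝓞 K) : K) ≠ 0 := by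
      rw [Ne, map_eq_zero]
      intro h3
      have h4 : (y : 𝓞 K) = 0 := by
        apply FaithfulSMul.algebraMap_injective (𝓞 K) K
        rw [map_zero]
        exact h3
      exact hy (by exact_mod_cast h4)
    refine ⟨WithZero.log (v.valuation K ((y : 𝓞 K) : K)), ?_⟩
    rw [h2]
    have h5 := WithZero.exp_log hy0
    have h6 : (2 : ℤ) * WithZero.log (v.valuation K ((y : 𝓞 K) : K)) =
        2 • WithZero.log (v.valuation K ((y : 𝓞 K) : K)) := by simp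
    rw [h6, WithZero.exp_nsmul, h5]
  · refine ⟨0, ?_⟩
    rw [hval A hAP, mul_zero, WithZero.exp_zero]

end Pool.Agent.K3h96.SQ
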